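import Pool.Agent.N718.GC.Stm

/-!
# Project GC (helper718), part MAINAG (worker: helper255)

The proof follows `Pool.Agent.N477.DC.MAINA` (helper477).
-/

set_option autoImplicit false

namespace Pool.Agent.N255.GC

open Pool.Agent.N718.DC Pool.Agent.N718.GC Finset

noncomputable section

variable {r m : ℕ} {e : Fin m → ℕ}

open Classical in
/-- the exceptional families in a class -/
def BB (E : Dat r m) (M : ℕ) (γ : (k : Fin m) → Fin (e k + 2) → ℤ) (s : Fin m → ℤ)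
    (a₀ a₁ : ℤ) (α β : ℝ) (H : ℕ) : Finset ((k : Fin m) → Fin (e k + 2) → ℤ) :=
  (BXI e H).filter (fun c => (∀ k j, (M : ℤ) ∣ c k j - γ k j) ∧
      (∀ k, ∀ z : ℝ, α < z → z < β → 0 < (s k : ℝ) * fmv (c k) 1 z) ∧
      ¬ ∃ x y : ℤ, 0 < x ∧ (M : ℤ) ∣ x - a₀ ∧ (M : ℤ) ∣ y - a₁ ∧ α * x < y ∧ (y : ℝ) < β * x ∧
        PG E c (x : ℚ) (y : ℚ))

theorem card_Gam (e : Fin m → ℕ) (M : ℕ) :
    (Fintype.piFinset (fun k : Fin m =>
      Fintype.piFinset (fun _ : Fin (e k + 2) => Ico (0 : ℤ) M))).card = M ^ ncI e := by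
  simp only [Fintype.card_piFinset, prod_const, Int.card_Ico, sub_zero, Int.toNat_natCast,
    card_univ, Fintype.card_fin]
  rw [prod_pow_eq_pow_sum]
  rfl

theorem padic_close (p : Nat.Primes) (N : ℕ) (X : ℚ_[(p : ℕ)]) (a b : ℤ)
    (h1 : ‖X - (a : ℚ_[(p : ℕ)])‖ ≤ (((p : ℕ) : ℝ) ^ N)⁻¹) (h2 : (((p : ℕ) : ℤ) ^ N) ∣ a - b) :
    ‖X - (b : ℚ_[(p : ℕ)])‖ ≤ (((p : ℕ) : ℝ) ^ N)⁻¹ := by
  have h3 : ‖((a - b : ℤ) : ℚ_[(p : ℕ)])‖ ≤ (((p : ℕ) : ℝ) ^ N)⁻¹ := by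
    have h4 := (Padic.norm_int_le_pow_iff_dvd (p := (p : ℕ)) (a - b) N).2 (by exact_mod_cast h2)
    rwa [zpow_neg, zpow_natCast] at h4
  have h5 : X - (b : ℚ_[(p : ℕ)]) = (X - (a : ℚ_[(p : ℕ)])) + ((a - b : ℤ) : ℚ_[(p : ℕ)]) := by
    push_cast
    ring
  rw [h5]
  exact (Padic.nonarchimedean _ _).trans (max_le h1 h3)

/-- the coefficients `a_j` do not vanish -/
theorem a_ne {E : Dat r m} (hE : E.Ok e) (j : Fin r) : E.a j ≠ 0 := by
  intro h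
  apply hE.ha {j} (singleton_nonempty j)
  rw [prod_singleton, h]
  exact ⟨0, by ring⟩

/-- the signs at a real point -/
theorem signs (h8 : S_LOCN) {E : Dat r m} (hE : E.Ok e) (c : (i : Fin m) → Fin (e i + 2) → ℤ)
    (z : ℝ) (h : PG E c (1 : ℝ) z) :
    ∃ s : Fin m → ℤ, SG E s ∧ ∀ i, 0 < (s i : ℝ) * fmv (c i) 1 z := by
  classical
  obtain ⟨h1, h2⟩ := h
  refine ⟨fun i => if 0 < fmv (c i) (1 : ℝ) z then 1 else -1, ?_, ?_⟩
  swap
  · intro i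
    by_cases h3 : 0 < fmv (c i) (1 : ℝ) z
    · simp only [h3, if_true]
      simpa using h3
    · simp only [h3, if_false]
      have h4 : fmv (c i) (1 : ℝ) z < 0 := lt_of_le_of_ne (not_lt.1 h3) (h1 i)
      push_cast
      linarith
  refine ⟨?_, ?_⟩
  · intro i
    by_cases h3 : 0 < fmv (c i) (1 : ℝ) z
    · left; simp only [h3, if_true]
    · right; simp only [h3, if_false]
  · intro j
    have hP : rhs E c j (1 : ℝ) z ≠ 0 := by
      unfold rhs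
      refine mul_ne_zero ?_ (prod_ne_zero_iff.2 fun i _ => h1 i)
      exact_mod_cast hE.hb j
    rcases (h8.2.2.2 (E.a j : ℝ) _ (by exact_mod_cast a_ne hE j) hP).1 (h2 j) with h3 | h3
    · left
      exact_mod_cast h3
    · right
      have h4 : 0 < ∏ i ∈ E.I j, (((if 0 < fmv (c i) (1 : ℝ) z then (1 : ℤ) else -1 : ℤ) : ℝ) *
          fmv (c i) (1 : ℝ) z) := by
        refine prod_pos fun i _ => ?_
        by_cases h3 : 0 < fmv (c i) (1 : ℝ) z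
        · simp only [h3, if_true]
          simpa using h3
        · simp only [h3, if_false]
          have h4 : fmv (c i) (1 : ℝ) z < 0 := lt_of_le_of_ne (not_lt.1 h3) (h1 i)
          push_cast
          linarith
      rw [prod_mul_distrib] at h4
      unfold rhs at h3
      obtain ⟨P, hP'⟩ : ∃ P : ℝ, P = ∏ i ∈ E.I j, fmv (c i) (1 : ℝ) z := ⟨_, rfl⟩
      obtain ⟨Sg, hS'⟩ : ∃ Sg : ℝ, Sg = ∏ i ∈ E.I j,
        ((if 0 < fmv (c i) (1 : ℝ) z then (1 : ℤ) else -1 : ℤ) : ℝ) := ⟨_, rfl⟩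
      rw [← hP'] at h3 h4
      rw [← hS'] at h4
      have h5 : 0 < ((E.b j : ℝ) * Sg) * P ^ 2 := by
        have := mul_pos h3 h4
        nlinarith
      have h6 : 0 < (E.b j : ℝ) * Sg := pos_of_mul_pos_left h5 (sq_nonneg P)
      have h7 : ((E.b j * ∏ i ∈ E.I j, (if 0 < fmv (c i) (1 : ℝ) z then (1 : ℤ) else -1) : ℤ) : ℝ) =
          (E.b j : ℝ) * Sg := by
        rw [hS']
        push_cast
        rfl
      rw [← h7] at h6
      exact_mod_cast h6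

theorem mainag_ (h1 : S_CLSG) (h2 : Pool.Agent.N718.DC.S_PADC) (h3 : S_REALS) (h4 : S_GLUEG)
    (h5 : S_LCI) (h6 : S_RESW) (h7 : S_TRIV) (h8 : S_LOCN) : S_MAINAG := by
  classical
  intro r m E e hm hE U hU S N η hη
  obtain ⟨Z, HR, hZ, hR⟩ := h3 (Fin m) e U hU (η / 8) (by positivity)
  obtain ⟨C, hC0, hC⟩ := h1 r m E e hE
  obtain ⟨W₀, hW₀⟩ := h7 m e (η / 8) (by positivity)
  -- the base factors
  obtain ⟨i₀, hi₀⟩ : ∃ i₀ : Fin r → Fin m, ∀ j, (E.I j).Nonempty → i₀ j ∈ E.I j := by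
    have : ∀ j, ∃ i : Fin m, (E.I j).Nonempty → i ∈ E.I j := by
      intro j
      by_cases h : (E.I j).Nonempty
      · obtain ⟨i, hi⟩ := h
        exact ⟨i, fun _ => hi⟩
      · exact ⟨⟨0, by omega⟩, fun h' => absurd h' h⟩
    choose i₀ hi₀ using this
    exact ⟨i₀, hi₀⟩
  obtain ⟨Q, hQ⟩ : ∃ Q : ℕ, Q = ∏ p ∈ S, (p : ℕ) ^ N := ⟨_, rfl⟩
  have hQ0 : 0 < Q := by
    rw [hQ]
    exact prod_pos fun p _ => pow_pos p.2.pos N
  obtain ⟨Sg, hSg⟩ : ∃ Sg : Finset (Fin m → ℤ),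
    Sg = Fintype.piFinset (fun _ => ({1, -1} : Finset ℤ)) := ⟨_, rfl⟩
  obtain ⟨Rs, hRs⟩ : ∃ Rs : Finset (ℤ × ℤ), Rs = Ico (0 : ℤ) Q ×ˢ Ico (0 : ℤ) Q := ⟨_, rfl⟩
  -- the product of the coefficients
  obtain ⟨B, hB0, hB⟩ : ∃ B : ℕ, B ≠ 0 ∧ ∀ p : ℕ, (p : ℤ) ∣ ∏ j, (E.a j * E.b j) → p ∣ B := by
    refine ⟨(∏ j, (E.a j * E.b j)).natAbs, ?_, ?_⟩
    · rw [Int.natAbs_ne_zero, prod_ne_zero_iff]
      intro j _
      exact mul_ne_zero (a_ne hE j) (hE.hb j)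
    · intro p hp
      exact Int.natCast_dvd.1 hp
  -- the choice of `W`
  obtain ⟨Kc, hKc⟩ : ∃ Kc : ℝ, Kc = C * (Rs.card * Z.card * Sg.card) := ⟨_, rfl⟩
  have hKc0 : 0 ≤ Kc := by rw [hKc]; positivity
  obtain ⟨W, hW2, hWS, hWK, hWB, hWW⟩ : ∃ W : ℕ, 2 ≤ W ∧ (∀ p ∈ S, (p : ℕ) ≤ W) ∧
      Kc / W ≤ η / 8 ∧ B ≤ W ∧ W₀ ≤ W := by
    obtain ⟨W₁, hW₁⟩ := exists_nat_gt (8 * Kc / η)
    refine ⟨2 + S.sup (fun p => (p : ℕ)) + B + W₀ + W₁, by omega, ?_, ?_, by omega, by omega⟩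
    · intro p hp
      have := Finset.le_sup (f := fun p : Nat.Primes => (p : ℕ)) hp
      omega
    · have h5 : (8 * Kc / η) <
          ((2 + S.sup (fun p : Nat.Primes => (p : ℕ)) + B + W₀ + W₁ : ℕ) : ℝ) := by
        refine hW₁.trans_le ?_
        exact_mod_cast Nat.le_add_left _ _
      have h6 : (0 : ℝ) < ((2 + S.sup (fun p : Nat.Primes => (p : ℕ)) + B + W₀ + W₁ : ℕ) : ℝ) := by
        exact_mod_cast (by omega : 0 < 2 + S.sup (fun p : Nat.Primes => (p : ℕ)) + B + W₀ + W₁)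
      rw [div_lt_iff₀ hη] at h5
      rw [div_le_div_iff₀ h6 (by norm_num)]
      linarith
  have hW0 : (0 : ℝ) < W := by exact_mod_cast (by omega : 0 < W)
  have hbadp : ∀ p : ℕ, p.Prime → (p : ℤ) ∣ ∏ j, (E.a j * E.b j) → p ≤ W := by
    intro p _ hp
    exact (Nat.le_of_dvd (Nat.pos_of_ne_zero hB0) (hB p hp)).trans hWB
  -- the choice of `W'`
  obtain ⟨W', hWW', HW, hHW⟩ := h6 r m E e hE i₀ W (η / 8) (by positivity)
  -- the trivial primes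
  obtain ⟨HT, hHT⟩ := hW₀ W hWW 1 le_rfl (by
    intro p hp hp1
    have := Nat.le_of_dvd one_pos hp1
    omega) (fun _ _ => 0)
  -- the exponents
  have hp : ∀ p : ℕ, ∃ n : ℕ, N ≤ n ∧ ∃ H₀ : ℕ, p.Prime → ∀ H : ℕ, H₀ ≤ H →
      (((BXI e H).filter (fun c => padBad p n c)).card : ℝ) ≤
        η / (8 * (W + 1)) * ((2 * H + 1 : ℕ) : ℝ) ^ ncI e := by
    intro p
    by_cases hpp : p.Prime
    · obtain ⟨n, hn, H₀, h5⟩ := h2 (Fin m) e p hpp (η / (8 * (W + 1))) N (by positivity)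
      exact ⟨n, hn, H₀, fun _ H hH => h5 H hH⟩
    · exact ⟨N, le_rfl, 0, fun h => absurd h hpp⟩
  choose n hn HP hHP using hp
  obtain ⟨PW, hPW⟩ : ∃ PW : Finset ℕ, PW = (Icc 1 W).filter Nat.Prime := ⟨_, rfl⟩
  obtain ⟨M, hM⟩ : ∃ M : ℕ, M = (∏ p ∈ (Icc 1 W).filter Nat.Prime, p ^ (3 * n p + 11 + dl E p)) *
      ∏ l ∈ (Ioc W W').filter Nat.Prime, l ^ 4 := ⟨_, rfl⟩
  have hmemPW : ∀ p : ℕ, p.Prime → p ≤ W → p ∈ (Icc 1 W).filter Nat.Prime := by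
    intro p h5 h6
    rw [mem_filter, mem_Icc]
    exact ⟨⟨h5.one_lt.le, h6⟩, h5⟩
  have hM1 : 1 ≤ M := by
    rw [hM]
    refine Nat.one_le_iff_ne_zero.2 (mul_ne_zero (prod_ne_zero_iff.2 fun p h5 => ?_)
      (prod_ne_zero_iff.2 fun p h5 => ?_))
    · exact pow_ne_zero _ (mem_filter.1 h5).2.ne_zero
    · exact pow_ne_zero _ (mem_filter.1 h5).2.ne_zero
  have hMp : ∀ p : ℕ, p.Prime → p ≤ W → p ^ (3 * n p + 11 + dl E p) ∣ M := by
    intro p h5 h6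
    rw [hM]
    exact (dvd_prod_of_mem (fun p => p ^ (3 * n p + 11 + dl E p)) (hmemPW p h5 h6)).trans
      (dvd_mul_right _ _)
  have hMp1 : ∀ p : ℕ, p.Prime → p ≤ W' → p ∣ M := by
    intro p h5 h6
    by_cases h7 : p ≤ W
    · exact (dvd_pow_self p (by omega)).trans (hMp p h5 h7)
    · rw [hM]
      have h8 : p ∈ (Ioc W W').filter Nat.Prime := by
        rw [mem_filter, mem_Ioc]
        exact ⟨⟨by omega, h6⟩, h5⟩
      exact (dvd_pow_self p (by norm_num)).trans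
        ((dvd_prod_of_mem (fun l => l ^ 4) h8).trans (dvd_mul_left _ _))
  have hMp2 : ∀ p : ℕ, p.Prime → p ∣ M → p ≤ W' := by
    intro p h5 h6
    rw [hM] at h6
    rcases (Nat.Prime.dvd_mul h5).1 h6 with h6 | h6
    · obtain ⟨q, hq, h7⟩ := (Nat.Prime.prime h5).exists_mem_finset_dvd h6
      have h8 := (mem_filter.1 hq)
      have h9 := (Nat.prime_dvd_prime_iff_eq h5 h8.2).1 (h5.dvd_of_dvd_pow h7)
      rw [h9]
      exact (mem_Icc.1 h8.1).2.trans hWW'.le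
    · obtain ⟨q, hq, h7⟩ := (Nat.Prime.prime h5).exists_mem_finset_dvd h6
      have h8 := (mem_filter.1 hq)
      have h9 := (Nat.prime_dvd_prime_iff_eq h5 h8.2).1 (h5.dvd_of_dvd_pow h7)
      rw [h9]
      exact (mem_Ioc.1 h8.1).2
  have h2M : 2 ∣ M := hMp1 2 Nat.prime_two (by omega)
  have hBad : Bad E M := ⟨hM1, h2M, fun p hp h => hMp1 p hp ((hbadp p hp h).trans hWW'.le)⟩
  -- the chosen points
  obtain ⟨Gd, hGd⟩ : ∃ Gd : ((k : Fin m) → Fin (e k + 2) → ℤ) → ℤ × ℤ → (Fin m → ℤ) →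
      ℤ × ℤ → Prop, ∀ γ σ s a, Gd γ σ s a ↔
        (LC E M γ s a.1 a.2 ∧ (Q : ℤ) ∣ a.1 - σ.1 ∧ (Q : ℤ) ∣ a.2 - σ.2) :=
    ⟨_, fun _ _ _ _ => Iff.rfl⟩
  have ha : ∀ γ σ s, ∃ a : ℤ × ℤ, (∃ a', Gd γ σ s a') → Gd γ σ s a := by
    intro γ σ s
    by_cases h5 : ∃ a', Gd γ σ s a'
    · obtain ⟨a', h6⟩ := h5
      exact ⟨a', fun _ => h6⟩
    · exact ⟨(0, 0), fun h => absurd h h5⟩
  choose a haG using ha
  have hB : ∀ x : (((k : Fin m) → Fin (e k + 2) → ℤ) × (ℤ × ℤ)) × ((ℝ × ℝ) ×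
      (Fin m → ℤ)), ∃ H₀ : ℕ, ((∃ a', Gd x.1.1 x.1.2 x.2.2 a') ∧ x.2.1.1 < x.2.1.2 ∧
        SG E x.2.2) →
      ∀ H : ℕ, H₀ ≤ H → ((BB E M x.1.1 x.2.2 (a x.1.1 x.1.2 x.2.2).1 (a x.1.1 x.1.2 x.2.2).2
        x.2.1.1 x.2.1.2 H).card : ℝ) ≤ C / W * (((2 * H + 1 : ℕ) : ℝ) / M) ^ ncI e := by
    intro x
    by_cases h5 : (∃ a', Gd x.1.1 x.1.2 x.2.2 a') ∧ x.2.1.1 < x.2.1.2 ∧ SG E x.2.2
    · have h6 := (hGd _ _ _ _).1 (haG x.1.1 x.1.2 x.2.2 h5.1)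
      obtain ⟨H₀, h7⟩ := hC W' M (by omega) hBad hMp1 hMp2 (a x.1.1 x.1.2 x.2.2).1
        (a x.1.1 x.1.2 x.2.2).2 x.2.1.1 x.2.1.2 h5.2.1 x.1.1 x.2.2 h5.2.2 h6.1
      refine ⟨H₀, fun _ H hH => ?_⟩
      have h9 := h7 H hH
      have h10 : C / (W' : ℝ) ≤ C / W := by
        apply div_le_div_of_nonneg_left hC0 hW0
        exact_mod_cast hWW'.le
      refine (le_of_eq_of_le ?_ h9).trans (mul_le_mul_of_nonneg_right h10 (by positivity))
      unfold BB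
      rfl
    · exact ⟨0, fun h => absurd h h5⟩
  choose HB hHB using hB
  obtain ⟨Gam, hGam⟩ : ∃ Gam : Finset ((k : Fin m) → Fin (e k + 2) → ℤ),
    Gam = Fintype.piFinset (fun k : Fin m =>
      Fintype.piFinset (fun _ : Fin (e k + 2) => Ico (0 : ℤ) M)) := ⟨_, rfl⟩
  obtain ⟨idx, hidx⟩ : ∃ idx : Finset ((((k : Fin m) → Fin (e k + 2) → ℤ) × (ℤ × ℤ)) ×
    ((ℝ × ℝ) × (Fin m → ℤ))), idx = (Gam ×ˢ Rs) ×ˢ (Z ×ˢ Sg) := ⟨_, rfl⟩
  obtain ⟨idx', hidx'⟩ : ∃ idx' : Finset ((((k : Fin m) → Fin (e k + 2) → ℤ) ×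
    (ℤ × ℤ)) × ((ℝ × ℝ) × (Fin m → ℤ))), idx' = idx.filter (fun x =>
      (∃ a', Gd x.1.1 x.1.2 x.2.2 a') ∧ x.2.1.1 < x.2.1.2 ∧ SG E x.2.2) := ⟨_, rfl⟩
  refine ⟨HR + PW.sup HP + idx.sup HB + HW + HT, fun H hH => ?_⟩
  have hHR : HR ≤ H := by omega
  have hHPH : ∀ p ∈ PW, HP p ≤ H := by
    intro p h5
    have := Finset.le_sup (f := HP) h5
    omega
  have hHBH : ∀ x ∈ idx, HB x ≤ H := by
    intro x h5
    have := Finset.le_sup (f := HB) h5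
    omega
  obtain ⟨T, hT⟩ : ∃ T : ℝ, T = ((2 * H + 1 : ℕ) : ℝ) ^ ncI e := ⟨_, rfl⟩
  have hT0 : 0 ≤ T := by rw [hT]; positivity
  -- the exceptional sets
  obtain ⟨A1, hA1⟩ : ∃ A1 : Finset ((k : Fin m) → Fin (e k + 2) → ℤ),
    A1 = PW.biUnion (fun p => (BXI e H).filter (fun c => padBad p (n p) c)) := ⟨_, rfl⟩
  obtain ⟨A2, hA2⟩ : ∃ A2 : Finset ((k : Fin m) → Fin (e k + 2) → ℤ),
    A2 = (BXI e H).filter (fun c => ∃ s : Fin m → ℤ, (∀ k, s k = 1 ∨ s k = -1) ∧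
      (∃ z ∈ U, ∀ k, 0 < (s k : ℝ) * fmv (c k) 1 z) ∧
      ¬ ∃ w ∈ Z, ∀ k, ∀ z : ℝ, w.1 < z → z < w.2 → 0 < (s k : ℝ) * fmv (c k) 1 z) := ⟨_, rfl⟩
  obtain ⟨A3, hA3⟩ : ∃ A3 : Finset ((k : Fin m) → Fin (e k + 2) → ℤ),
    A3 = idx'.biUnion (fun x => BB E M x.1.1 x.2.2 (a x.1.1 x.1.2 x.2.2).1
      (a x.1.1 x.1.2 x.2.2).2 x.2.1.1 x.2.1.2 H) := ⟨_, rfl⟩
  obtain ⟨A4, hA4⟩ : ∃ A4 : Finset ((k : Fin m) → Fin (e k + 2) → ℤ),
    A4 = (BXI e H).filter (fun c => ¬ Wind E c i₀ W W') := ⟨_, rfl⟩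
  obtain ⟨A5, hA5⟩ : ∃ A5 : Finset ((k : Fin m) → Fin (e k + 2) → ℤ),
    A5 = (BXI e H).filter (fun c => (∀ i j, ((1 : ℕ) : ℤ) ∣ c i j - (fun _ _ => (0 : ℤ)) i j) ∧
      ∃ l : ℕ, l.Prime ∧ W < l ∧ ¬ Triv c l) := ⟨_, rfl⟩
  have hc1 : (A1.card : ℝ) ≤ η / 8 * T := by
    have h5 : (A1.card : ℝ) ≤ ∑ p ∈ PW,
        (((BXI e H).filter (fun c => padBad p (n p) c)).card : ℝ) := by
      rw [hA1]
      exact_mod_cast card_biUnion_le
    refine h5.trans ?_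
    have h6 : ∀ p ∈ PW, (((BXI e H).filter (fun c => padBad p (n p) c)).card : ℝ) ≤
        η / (8 * (W + 1)) * T := by
      intro p h7
      rw [hT]
      refine hHP p ?_ H (hHPH p h7)
      rw [hPW] at h7
      exact (mem_filter.1 h7).2
    refine (sum_le_sum h6).trans ?_
    rw [sum_const, nsmul_eq_mul]
    have h7 : (PW.card : ℝ) ≤ W := by
      have h8 : PW.card ≤ W := by
        rw [hPW]
        refine (card_filter_le _ _).trans ?_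
        rw [Nat.card_Icc]
        omega
      exact_mod_cast h8
    have h8 : (PW.card : ℝ) * (η / (8 * (W + 1))) ≤ η / 8 := by
      rw [← mul_div_assoc, div_le_div_iff₀ (by positivity) (by norm_num)]
      nlinarith
    calc (PW.card : ℝ) * (η / (8 * (W + 1)) * T) = (PW.card : ℝ) * (η / (8 * (W + 1))) * T := by
          ring
      _ ≤ η / 8 * T := mul_le_mul_of_nonneg_right h8 hT0
  have hc2 : (A2.card : ℝ) ≤ η / 8 * T := by
    rw [hA2, hT]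
    have h5 := hR H hHR
    convert h5
  have hc3 : (A3.card : ℝ) ≤ η / 8 * T := by
    have h5 : (A3.card : ℝ) ≤ ∑ x ∈ idx', ((BB E M x.1.1 x.2.2 (a x.1.1 x.1.2 x.2.2).1
        (a x.1.1 x.1.2 x.2.2).2 x.2.1.1 x.2.1.2 H).card : ℝ) := by
      rw [hA3]
      exact_mod_cast card_biUnion_le
    refine h5.trans ?_
    have h6 : ∀ x ∈ idx', ((BB E M x.1.1 x.2.2 (a x.1.1 x.1.2 x.2.2).1
        (a x.1.1 x.1.2 x.2.2).2 x.2.1.1 x.2.1.2 H).card : ℝ) ≤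
        C / W * (((2 * H + 1 : ℕ) : ℝ) / M) ^ ncI e := by
      intro x h7
      rw [hidx'] at h7
      have h8 := mem_filter.1 h7
      exact hHB x h8.2 H (hHBH x h8.1)
    refine (sum_le_sum h6).trans ?_
    rw [sum_const, nsmul_eq_mul]
    have h7 : (idx'.card : ℝ) ≤ (M : ℝ) ^ ncI e * (Rs.card * Z.card * Sg.card) := by
      have h8 : idx'.card ≤ M ^ ncI e * (Rs.card * Z.card * Sg.card) := by
        rw [hidx']
        refine (card_filter_le _ _).trans ?_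
        rw [hidx, card_product, card_product, card_product, hGam, card_Gam]
        apply le_of_eq
        ring
      exact_mod_cast h8
    have hM0 : (0 : ℝ) < (M : ℝ) ^ ncI e := by
      have : (0 : ℝ) < M := by exact_mod_cast hM1
      positivity
    have h9 : 0 ≤ C / W * (((2 * H + 1 : ℕ) : ℝ) / M) ^ ncI e := by positivity
    refine (mul_le_mul_of_nonneg_right h7 h9).trans ?_
    have h10 : (M : ℝ) ^ ncI e * (Rs.card * Z.card * Sg.card) *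
        (C / W * (((2 * H + 1 : ℕ) : ℝ) / M) ^ ncI e) = Kc / W * T := by
      rw [div_pow, hKc, hT]
      field_simp
    rw [h10]
    exact mul_le_mul_of_nonneg_right hWK hT0
  have hc4 : (A4.card : ℝ) ≤ η / 8 * T := by
    rw [hA4, hT]
    have h5 := hHW H (by omega)
    convert h5
  have hc5 : (A5.card : ℝ) ≤ η / 8 * T := by
    rw [hA5, hT]
    have h5 := hHT H (by omega)
    have h9 : (((2 * H + 1 : ℕ) : ℝ) / ((1 : ℕ) : ℝ)) = ((2 * H + 1 : ℕ) : ℝ) := by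
      rw [Nat.cast_one, div_one]
    rw [h9] at h5
    convert h5
  -- the covering
  have hsub : (BXI e H).filter (fun c => LocG E U c ∧ ¬ ApprG E U S N c) ⊆
      A1 ∪ A2 ∪ A3 ∪ A4 ∪ A5 := by
    intro c hc
    obtain ⟨hcB, hcL, hcA⟩ := mem_filter.1 hc
    by_cases hcond5 : ∃ l : ℕ, l.Prime ∧ W < l ∧ ¬ Triv c l
    · refine mem_union_right _ ?_
      rw [hA5, mem_filter]
      refine ⟨hcB, ?_, hcond5⟩
      intro i j
      simp
    refine mem_union_left _ ?_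
    by_cases hcond4 : Wind E c i₀ W W'
    swap
    · refine mem_union_right _ ?_
      rw [hA4, mem_filter]
      exact ⟨hcB, hcond4⟩
    refine mem_union_left _ ?_
    by_cases hcond1 : ∃ p ∈ PW, padBad p (n p) c
    · obtain ⟨p, h6, h7⟩ := hcond1
      refine mem_union_left _ (mem_union_left _ ?_)
      rw [hA1, mem_biUnion]
      exact ⟨p, h6, mem_filter.2 ⟨hcB, h7⟩⟩
    obtain ⟨z₀, hz₀U, hz₀⟩ := hcL.1
    obtain ⟨s, hs, hsz⟩ := signs h8 hE c z₀ hz₀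
    by_cases hcond2 : ∃ w ∈ Z, ∀ k, ∀ z : ℝ, w.1 < z → z < w.2 → 0 < (s k : ℝ) * fmv (c k) 1 z
    swap
    · refine mem_union_left _ (mem_union_right _ ?_)
      rw [hA2, mem_filter]
      exact ⟨hcB, s, hs.1, ⟨z₀, hz₀U, hsz⟩, hcond2⟩
    refine mem_union_right _ ?_
    obtain ⟨w, hw, hpos⟩ := hcond2
    have hnb : ∀ p : ℕ, p.Prime → p ≤ W → ¬ padBad p (n p) c := by
      intro p h7 h8 h9
      refine hcond1 ⟨p, ?_, h9⟩
      rw [hPW]
      exact hmemPW p h7 h8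
    have htr : ∀ l : ℕ, l.Prime → W < l → l ≤ W' → Triv c l := by
      intro l h7 h8 _
      by_contra h9
      exact hcond5 ⟨l, h7, h8, h9⟩
    unfold ApprG at hcA
    push Not at hcA
    obtain ⟨X, Y, hXY, hno⟩ := hcA
    obtain ⟨a₀, a₁, hclose, hloc⟩ := h4 r m E e hm hE i₀ hi₀ S N W W' n M hW2 hWW'.le hbadp hM
      hWS hn c hnb htr hcond4 (fun p _ => hcL.2 p) s hs X Y hXY
    -- the class
    obtain ⟨γ, hγ⟩ : ∃ γ : (k : Fin m) → Fin (e k + 2) → ℤ, ∀ k j, γ k j = c k j % M :=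
      ⟨_, fun _ _ => rfl⟩
    have hM0' : (0 : ℤ) < M := by exact_mod_cast hM1
    have hγG : γ ∈ Gam := by
      rw [hGam, Fintype.mem_piFinset]
      intro k
      rw [Fintype.mem_piFinset]
      intro j
      rw [mem_Ico, hγ]
      exact ⟨Int.emod_nonneg _ hM0'.ne', Int.emod_lt_of_pos _ hM0'⟩
    have hcγ : ∀ k j, (M : ℤ) ∣ c k j - γ k j := by
      intro k j
      rw [hγ]
      exact Int.dvd_self_sub_emod
    have hlocγ : LC E M γ s a₀ a₁ := h5 r m E e hE M hBad c γ s a₀ a₁ a₀ a₁ hs.1 hcγ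
      (by simp) (by simp) hloc
    have hQ0' : (0 : ℤ) < Q := by exact_mod_cast hQ0
    obtain ⟨σ, hσ⟩ : ∃ σ : ℤ × ℤ, σ = (a₀ % Q, a₁ % Q) := ⟨_, rfl⟩
    have hσR : σ ∈ Rs := by
      rw [hRs, mem_product, mem_Ico, mem_Ico, hσ]
      exact ⟨⟨Int.emod_nonneg _ hQ0'.ne', Int.emod_lt_of_pos _ hQ0'⟩,
        ⟨Int.emod_nonneg _ hQ0'.ne', Int.emod_lt_of_pos _ hQ0'⟩⟩
    have hex : ∃ a', Gd γ σ s a' := by
      refine ⟨(a₀, a₁), (hGd _ _ _ _).2 ⟨hlocγ, ?_, ?_⟩⟩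
      · rw [hσ]
        exact Int.dvd_self_sub_emod
      · rw [hσ]
        exact Int.dvd_self_sub_emod
    have hchosen := (hGd _ _ _ _).1 (haG γ σ s hex)
    have hsSg : s ∈ Sg := by
      rw [hSg, Fintype.mem_piFinset]
      intro k
      rw [mem_insert, mem_singleton]
      exact hs.1 k
    rw [hA3, mem_biUnion]
    refine ⟨((γ, σ), (w, s)), ?_, ?_⟩
    · rw [hidx', mem_filter, hidx]
      refine ⟨mem_product.2 ⟨mem_product.2 ⟨hγG, hσR⟩, mem_product.2 ⟨hw, hsSg⟩⟩, hex,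
        (hZ w hw).1, hs⟩
    · unfold BB
      rw [mem_filter]
      refine ⟨hcB, hcγ, hpos, ?_⟩
      rintro ⟨x, y, hx0, hxM, hyM, hxy, hyx, hPS⟩
      have hx0' : (0 : ℝ) < x := by exact_mod_cast hx0
      have hyU : (y : ℝ) / x ∈ U := by
        refine (hZ w hw).2 ⟨?_, ?_⟩
        · rw [le_div_iff₀ hx0']
          exact hxy.le
        · rw [div_le_iff₀ hx0']
          exact hyx.le
      -- closeness
      have hdvdQ : ∀ p ∈ S, (((p : ℕ) : ℤ) ^ N) ∣ (Q : ℤ) := by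
        intro p hp
        have h7 : (p : ℕ) ^ N ∣ Q := by
          rw [hQ]
          exact dvd_prod_of_mem (fun p : Nat.Primes => (p : ℕ) ^ N) hp
        exact_mod_cast h7
      have hdvdM : ∀ p ∈ S, (((p : ℕ) : ℤ) ^ N) ∣ (M : ℤ) := by
        intro p hp
        have h7 : (p : ℕ) ^ N ∣ M := by
          refine (pow_dvd_pow _ ?_).trans (hMp p p.2 (hWS p hp))
          have := hn p
          omega
        exact_mod_cast h7
      have key : ∀ (b b' z : ℤ) (τ : ℤ), (Q : ℤ) ∣ b - τ → (Q : ℤ) ∣ b' - τ →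
          (M : ℤ) ∣ z - b' → ∀ p ∈ S, (((p : ℕ) : ℤ) ^ N) ∣ b - z := by
        intro b b' z τ h7 h8 h9 p hp
        have h10 : b - z = (b - τ) - (b' - τ) - (z - b') := by ring
        rw [h10]
        exact dvd_sub (dvd_sub ((hdvdQ p hp).trans h7) ((hdvdQ p hp).trans h8))
          ((hdvdM p hp).trans h9)
      have hcl : ∀ p ∈ S, ‖X p - (x : ℚ_[(p : ℕ)])‖ ≤ (((p : ℕ) : ℝ) ^ N)⁻¹ ∧
          ‖Y p - (y : ℚ_[(p : ℕ)])‖ ≤ (((p : ℕ) : ℝ) ^ N)⁻¹ := by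
        intro p hp
        refine ⟨padic_close p N (X p) a₀ x (hclose p hp).1 ?_,
          padic_close p N (Y p) a₁ y (hclose p hp).2 ?_⟩
        · refine key a₀ (a γ σ s).1 x σ.1 ?_ hchosen.2.1 hxM p hp
          rw [hσ]
          exact Int.dvd_self_sub_emod
        · refine key a₁ (a γ σ s).2 y σ.2 ?_ hchosen.2.2 hyM p hp
          rw [hσ]
          exact Int.dvd_self_sub_emod
      obtain ⟨p, hp, h7⟩ := hno x y hx0 hyU hPS
      exact absurd (hcl p hp).2 (not_le.2 (h7 (hcl p hp).1))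
  have hfin : (((BXI e H).filter (fun c => LocG E U c ∧ ¬ ApprG E U S N c)).card : ℝ) ≤
      (A1.card : ℝ) + A2.card + A3.card + A4.card + A5.card := by
    have h9 := (card_le_card hsub).trans ((card_union_le _ _).trans
      (Nat.add_le_add_right ((card_union_le _ _).trans (Nat.add_le_add_right
        ((card_union_le _ _).trans (Nat.add_le_add_right (card_union_le _ _) _)) _)) _))
    exact_mod_cast h9
  rw [← hT]
  have h9 : η / 8 * T + η / 8 * T + η / 8 * T + η / 8 * T + η / 8 * T ≤ η * T := by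
    nlinarith [mul_nonneg hη.le hT0]
  have h10 := hfin.trans (add_le_add (add_le_add (add_le_add (add_le_add hc1 hc2) hc3) hc4) hc5)
  convert h10.trans h9

end

end Pool.Agent.N255.GC
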